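import Pool.Agent.P8H97.GW.Stm2
import Pool.Agent.Y308.BC.Gevrey

/-! # GW/GEV: a bump on `(0, 1)` with rapidly decreasing Fourier transform -/

set_option autoImplicit false

namespace Pool.Agent.P8H76.GW

open MeasureTheory Filter Topology Set Pool.Agent.P8H97.GW Pool.Agent.Y308.BC

/-- the exponential factor -/
noncomputable def ef (y x : ℝ) : ℂ := Complex.exp (-(y * x * Complex.I))

lemma ef_eq (y x : ℝ) : ef y x = Complex.exp (((-(y * x) : ℝ) : ℂ) * Complex.I) := by
  unfold ef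
  congr 1
  push_cast
  ring

lemma ef_norm (y x : ℝ) : ‖ef y x‖ = 1 := by
  rw [ef_eq, Complex.norm_exp_ofReal_mul_I]

lemma ef_deriv (y x : ℝ) : HasDerivAt (ef y) (-(y * Complex.I) * ef y x) x := by
  have h1 : HasDerivAt (fun x : ℝ => (x : ℂ)) 1 x := Complex.ofRealCLM.hasDerivAt
  have h2 : HasDerivAt (fun x : ℝ => -((y : ℂ) * (x : ℂ) * Complex.I)) (-((y : ℂ) * 1 * Complex.I)) x :=
    ((h1.const_mul (y : ℂ)).mul_const Complex.I).neg
  have h3 := h2.cexp
  refine h3.congr_deriv ?_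
  unfold ef
  ring

lemma ef_cont (y : ℝ) : Continuous (ef y) :=
  continuous_iff_continuousAt.2 fun x => (ef_deriv y x).continuousAt

/-- the Fourier integrals of the derivatives -/
noncomputable def Fi (j : ℕ) (y : ℝ) : ℂ := ∫ x in (0 : ℝ)..1, ((gj j x : ℝ) : ℂ) * ef y x

lemma Fi_succ (j : ℕ) (y : ℝ) : Fi (j + 1) y = y * Complex.I * Fi j y := by
  have hd : ∀ x : ℝ, HasDerivAt (fun x => ((gj j x : ℝ) : ℂ) * ef y x)
      (((gj (j + 1) x : ℝ) : ℂ) * ef y x - y * Complex.I * (((gj j x : ℝ) : ℂ) * ef y x)) x := by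
    intro x
    have h1 := ((gj_deriv j x).ofReal_comp).mul (ef_deriv y x)
    refine h1.congr_deriv ?_
    ring
  have c1 : Continuous fun x => ((gj (j + 1) x : ℝ) : ℂ) * ef y x :=
    (Complex.continuous_ofReal.comp (gj_cont (j + 1))).mul (ef_cont y)
  have c2 : Continuous fun x => y * Complex.I * (((gj j x : ℝ) : ℂ) * ef y x) :=
    continuous_const.mul ((Complex.continuous_ofReal.comp (gj_cont j)).mul (ef_cont y))
  have h2 := intervalIntegral.integral_eq_sub_of_hasDerivAt (a := 0) (b := 1) (fun x _ => hd x)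
    ((c1.sub c2).intervalIntegrable _ _)
  rw [gj_out j (t := 1) (by norm_num), gj_out j (t := 0) (by norm_num),
    intervalIntegral.integral_sub (c1.intervalIntegrable _ _) (c2.intervalIntegrable _ _),
    intervalIntegral.integral_const_mul] at h2
  simp only [Complex.ofReal_zero, zero_mul, sub_zero] at h2
  exact sub_eq_zero.1 h2

lemma Fi_pow (j : ℕ) (y : ℝ) : ‖Fi j y‖ = |y| ^ j * ‖Fi 0 y‖ := by
  induction j with
  | zero => simp
  | succ j ih =>
    rw [Fi_succ, norm_mul, norm_mul, Complex.norm_I, mul_one, Complex.norm_real, Real.norm_eq_abs, ih, pow_succ]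
    ring

lemma Fi_le (j : ℕ) (y : ℝ) : ‖Fi j y‖ ≤ (7 * j ^ 2) ^ j := by
  have h1 : ‖Fi j y‖ ≤ 7 ^ j * (j.factorial * √(j.factorial)) * |(1 : ℝ) - 0| := by
    refine intervalIntegral.norm_integral_le_of_norm_le_const fun x _ => ?_
    rw [norm_mul, ef_norm, mul_one, Complex.norm_real, Real.norm_eq_abs]
    exact gj_bound j x
  have h2 : (1 : ℝ) ≤ (j.factorial : ℝ) := by exact_mod_cast j.factorial_pos
  have h3 : √(j.factorial : ℝ) ≤ (j.factorial : ℝ) := by
    rw [Real.sqrt_le_left (by positivity)]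
    nlinarith
  have h4 : (j.factorial : ℝ) ≤ (j : ℝ) ^ j := by exact_mod_cast Nat.factorial_le_pow j
  calc ‖Fi j y‖ ≤ 7 ^ j * (j.factorial * √(j.factorial)) := by simpa using h1
    _ ≤ 7 ^ j * ((j : ℝ) ^ j * (j : ℝ) ^ j) := by
        refine mul_le_mul_of_nonneg_left ?_ (by positivity)
        exact mul_le_mul h4 (h3.trans h4) (by positivity) (by positivity)
    _ = (7 * j ^ 2) ^ j := by rw [mul_pow, ← mul_pow, sq]

lemma Fi_zero_le (y : ℝ) : ‖Fi 0 y‖ ≤ Real.exp 2 * Real.exp (-(2 * Real.exp (-1) / √7 * |y| ^ (1 / 2 : ℝ))) := by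
  have h7 : (0 : ℝ) < √7 := by positivity
  set s := Real.exp (-1) / √7 * |y| ^ (1 / 2 : ℝ) with hs
  have hs0 : 0 ≤ s := by positivity
  set j := ⌊s⌋₊ with hj
  have hj1 : (j : ℝ) ≤ s := Nat.floor_le hs0
  have hj2 : s < j + 1 := Nat.lt_floor_add_one s
  have hrhs : Real.exp (-(2 * (j : ℝ))) ≤ Real.exp 2 * Real.exp (-(2 * Real.exp (-1) / √7 * |y| ^ (1 / 2 : ℝ))) := by
    rw [← Real.exp_add]
    refine Real.exp_le_exp.2 ?_
    have : 2 * Real.exp (-1) / √7 * |y| ^ (1 / 2 : ℝ) = 2 * s := by rw [hs]; ring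
    rw [this]
    linarith
  refine le_trans ?_ hrhs
  have h1 := Fi_le j y
  rw [Fi_pow] at h1
  rcases Nat.eq_zero_or_pos j with h0 | h0
  · rw [h0] at h1 ⊢
    simpa using h1
  · have hjp : (0 : ℝ) < j := by exact_mod_cast h0
    have hsp : 0 < s := lt_of_lt_of_le hjp hj1
    have hy : 0 < |y| := by
      rcases (abs_nonneg y).eq_or_lt with h | h
      · rw [hs, ← h, Real.zero_rpow (by norm_num), mul_zero] at hsp
        exact absurd hsp (lt_irrefl _)
      · exact h
    -- `7 j² ≤ exp (-2) |y|`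
    have h2 : 7 * (j : ℝ) ^ 2 ≤ Real.exp (-2) * |y| := by
      have e1 : (j : ℝ) ^ 2 ≤ s ^ 2 := pow_le_pow_left₀ hjp.le hj1 2
      have e2 : s ^ 2 = Real.exp (-2) / 7 * |y| := by
        rw [hs, mul_pow, div_pow, Real.sq_sqrt (by norm_num), ← Real.exp_nat_mul, ← Real.rpow_natCast,
          ← Real.rpow_mul (abs_nonneg y)]
        norm_num
      rw [e2] at e1
      linarith
    have h3 : (7 * (j : ℝ) ^ 2) ^ j ≤ (Real.exp (-2) * |y|) ^ j := pow_le_pow_left₀ (by positivity) h2 j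
    have h4 : |y| ^ j * ‖Fi 0 y‖ ≤ |y| ^ j * Real.exp (-(2 * (j : ℝ))) := by
      refine (h1.trans h3).trans (le_of_eq ?_)
      rw [mul_pow, ← Real.exp_nat_mul, mul_comm]
      congr 2
      ring
    exact le_of_mul_le_mul_left h4 (by positivity)

/-- Package GEV -/
theorem gev : S_GEV := by
  refine ⟨gj 0, gj_cont 0, fun x => ?_, fun x => ?_, fun x hx => ?_, fun x h0 h1 => gj_zero_pos h0 h1,
    Real.exp 2, 2 * Real.exp (-1) / √7, by positivity, fun y => ?_⟩
  · by_cases h : 0 < x ∧ x < 1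
    · exact (gj_zero_pos h.1 h.2).le
    · rw [gj_out 0 h]
  · have := (abs_le.1 (gj_bound 0 x)).2
    simpa using this
  · by_contra h
    exact hx (gj_out 0 h)
  · have h1 : ∫ x : ℝ, ((gj 0 x : ℝ) : ℂ) * Complex.exp (-(y * x * Complex.I)) = Fi 0 y := by
      unfold Fi
      rw [intervalIntegral.integral_of_le zero_le_one]
      symm
      refine setIntegral_eq_integral_of_forall_compl_eq_zero fun x hx => ?_
      rw [gj_out 0 (fun h => hx ⟨h.1, h.2.le⟩), Complex.ofReal_zero, zero_mul]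
    rw [h1]
    exact Fi_zero_le y

end Pool.Agent.P8H76.GW
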